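import Pool.Agent.Lib.MP_ec42c8_pr.Z07

/-!
# MP_ec42c8_pr : hitting-time coupling of the graph process with random regular graphs

The coupling exists for every bounded degree, and more generally for all `d = d(n)` that are at most
`D(n)` or at least `n - 1 - D(n)`, where `D(n)` is some function that tends to infinity.
-/

set_option autoImplicit false

namespace Pool.Agent.Results.MP_ec42c8_pr.BoundedDegree

open Finset Filter Topology
open scoped Classical

/-- The pairs of distinct vertices. -/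
abbrev Pair (n : ℕ) : Type := {e : Sym2 (Fin n) // ¬ e.IsDiag}

/-- A run of the `n`-vertex random graph process: an ordering of all pairs.  The process is a
uniformly random run. -/
abbrev Run (n : ℕ) : Type := Fin (Fintype.card (Pair n)) ≃ Pair n

/-- The graph `G_i` of a run: its edges are the first `i` pairs. -/
def stage {n : ℕ} (σ : Run n) (i : ℕ) : SimpleGraph (Fin n) :=
  SimpleGraph.fromEdgeSet {e | ∃ h : ¬ e.IsDiag, (σ.symm ⟨e, h⟩ : ℕ) < i}

/-- The event of the problem: for all `i`, if `Δ(G_i) ≤ d` then `G_i ⊆ G`, and if `δ(G_i) ≥ d` then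
`G ⊆ G_i`. -/
def Fits {n : ℕ} (d : ℕ) (σ : Run n) (G : SimpleGraph (Fin n)) : Prop :=
  ∀ i, ((∀ v, (stage σ i).degree v ≤ d) → stage σ i ≤ G) ∧
    ((∀ v, d ≤ (stage σ i).degree v) → G ≤ stage σ i)

/-- `w` is the joint law of a coupling of the process with the uniform random `d`-regular graph. -/
structure IsCoupling (n d : ℕ) (w : Run n → SimpleGraph (Fin n) → ℝ) : Prop where
  nonneg : ∀ σ G, 0 ≤ w σ G
  process : ∀ σ, ∑ G, w σ G = 1 / (Fintype.card (Run n) : ℝ)
  regular : ∀ G, ∑ σ, w σ G = if G.IsRegularOfDegree d then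
    1 / ((Finset.univ.filter fun G' : SimpleGraph (Fin n) => G'.IsRegularOfDegree d).card : ℝ)
    else 0

section aux
open Pool.Agent.HC

lemma stage_eq {n : ℕ} (σ : Run n) (i : ℕ) : stage σ i = toG (HC.proc σ i) := by
  simp only [stage, toG, HC.proc, Finset.mem_filter, Finset.mem_univ, true_and]

lemma degree_of_eq {n : ℕ} {G : SimpleGraph (Fin n)} {H : HC.Gr n} (h : G = toG H) (v : Fin n)
    [Fintype (G.neighborSet v)] : G.degree v = HC.deg H v := by
  subst h
  exact z07_degree H v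

lemma fits_iff {n : ℕ} (d : ℕ) (σ : Run n) (H : HC.Gr n) :
    Fits d σ (toG H) ↔ HC.Fits d σ H := by
  have h1 : ∀ i v, (stage σ i).degree v = HC.deg (HC.proc σ i) v :=
    fun i v => degree_of_eq (stage_eq σ i) v
  have h2 : ∀ i, (stage σ i ≤ toG H ↔ HC.proc σ i ⊆ H) := fun i => by rw [stage_eq, z07_le]
  have h3 : ∀ i, (toG H ≤ stage σ i ↔ H ⊆ HC.proc σ i) := fun i => by rw [stage_eq, z07_le]
  simp only [Fits, HC.Fits, h1, h2, h3]

lemma reg_iff {n : ℕ} (d : ℕ) (H : HC.Gr n) :
    (toG H).IsRegularOfDegree d ↔ H ∈ HC.Reg n d ∅ := by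
  simp only [SimpleGraph.IsRegularOfDegree, z07_degree, HC.Reg, Finset.mem_filter,
    Finset.mem_univ, true_and, Finset.empty_subset]

lemma card_reg (n d : ℕ) :
    (Finset.univ.filter fun G' : SimpleGraph (Fin n) => G'.IsRegularOfDegree d).card =
      (HC.Reg n d ∅).card := by
  symm
  refine Finset.card_bij (fun H _ => toG H) ?_ ?_ ?_
  · intro H hH
    rw [Finset.mem_filter]
    exact ⟨Finset.mem_univ _, (reg_iff d H).2 hH⟩
  · intro H _ H' _ h
    exact (eG n).injective h
  · intro G hG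
    rw [Finset.mem_filter] at hG
    obtain ⟨H, rfl⟩ := (eG n).surjective G
    exact ⟨H, (reg_iff d H).1 hG.2, rfl⟩

/-- Translation of a coupling. -/
lemma transl {d n : ℕ} {ε : ℝ} (h : HC.Coup d n ε) :
    ∃ w : Run n → SimpleGraph (Fin n) → ℝ, IsCoupling n d w ∧
        1 - ε ≤ ∑ σ, ∑ G, if Fits d σ G then w σ G else 0 := by
  obtain ⟨hne, w, h0, h1, h2, h3⟩ := h
  refine ⟨fun σ G => w σ ((eG n).symm G), ⟨fun σ G => h0 _ _, fun σ => ?_, fun G => ?_⟩, ?_⟩
  · rw [← h1 σ]
    exact Equiv.sum_comp (eG n).symm (fun H => w σ H)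
  · obtain ⟨H, rfl⟩ := (eG n).surjective G
    have h4 := h2 H
    simp only [Equiv.symm_apply_apply]
    rw [h4, card_reg]
    by_cases hr : H ∈ HC.Reg n d ∅
    · rw [if_pos hr, if_pos]
      exact (reg_iff d H).2 hr
    · rw [if_neg hr, if_neg]
      exact fun h => hr ((reg_iff d H).1 h)
  · have h5 : ∑ σ, ∑ G, (if Fits d σ G then w σ ((eG n).symm G) else 0) =
        ∑ σ, ∑ H, (if HC.Fits d σ H then w σ H else 0) := by
      refine Finset.sum_congr rfl fun σ _ => ?_
      rw [← Equiv.sum_comp (eG n)]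
      refine Finset.sum_congr rfl fun H _ => ?_
      simp only [Equiv.symm_apply_apply]
      by_cases hf : HC.Fits d σ H
      · rw [if_pos hf, if_pos]
        exact (fits_iff d σ H).2 hf
      · rw [if_neg hf, if_neg]
        exact fun h => hf ((fits_iff d σ H).1 h)
    rw [h5]
    have : Nonempty (Run n) := ⟨(Fintype.equivFin (Pair n)).symm⟩
    have hc : (Fintype.card (Run n) : ℝ) ≠ 0 := by exact_mod_cast Fintype.card_ne_zero
    have h6 : ∑ σ, ∑ H, (if HC.Fits d σ H then w σ H else 0) +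
        ∑ σ, ∑ H, (if HC.Fits d σ H then 0 else w σ H) = 1 := by
      rw [← Finset.sum_add_distrib]
      have h7 : ∀ σ : Run n, (∑ H, (if HC.Fits d σ H then w σ H else 0)) +
          ∑ H, (if HC.Fits d σ H then 0 else w σ H) = 1 / (Fintype.card (Run n) : ℝ) := by
        intro σ
        rw [← Finset.sum_add_distrib, ← h1 σ]
        refine Finset.sum_congr rfl fun H _ => ?_
        by_cases hf : HC.Fits d σ H <;> simp [hf]
      rw [Finset.sum_congr rfl fun σ _ => h7 σ, Finset.sum_const, Finset.card_univ, nsmul_eq_mul]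
      field_simp
    linarith

end aux

/-- There is a function `D` tending to infinity such that the coupling exists, with probability of
success tending to `1`, uniformly for all degrees `d ≤ D n` and all degrees `d ≥ n - 1 - D n`. -/
theorem result : ∃ D : ℕ → ℕ, Tendsto D atTop atTop ∧
    ∀ ε : ℝ, 0 < ε → ∃ n₀ : ℕ, ∀ n ≥ n₀, ∀ d : ℕ, 1 ≤ d → d ≤ n - 1 → Even (d * n) →
      (d ≤ D n ∨ n - 1 ≤ d + D n) →
      ∃ w : Run n → SimpleGraph (Fin n) → ℝ, IsCoupling n d w ∧
        1 - ε ≤ ∑ σ, ∑ G, if Fits d σ G then w σ G else 0 := by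
  obtain ⟨D, hD, h⟩ := HC.Z06
  refine ⟨D, hD, fun ε hε => ?_⟩
  obtain ⟨n₀, hn₀⟩ := h ε hε
  refine ⟨n₀, fun n hn d hd1 hd2 hdn hdD => transl (hn₀ n hn d (by omega) hdn ?_)⟩
  rcases hdD with h | h
  · exact Or.inl h
  · exact Or.inr (by omega)

end Pool.Agent.Results.MP_ec42c8_pr.BoundedDegree
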